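import Pool.Agent.Lib.MP_37c7bf_co_Dense.Main
import Pool.Agent.Lib.MP_37c7bf_co_h77dm.Defs

/-!
# Soundness of the cluster rules and the kernel equivalence

Every vertex of the cluster of a seed moves as one rigid body with it, and a graph is generically
rigid if and only if a kernel graph of it (`Data`) is.
-/

set_option linter.unusedVariables false

open scoped Matrix
open MeasureTheory Function

namespace Pool.Agent.Lib.MP_37c7bf_co_h54dm

open Pool.Agent.MP_37c7bf_co_Dense Pool.Agent.Lib.MP_37c7bf_co_h77dm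

variable {V : Type*} [Fintype V] [DecidableEq V] {G : SimpleGraph V} {p : V → Pt}

/-- The seed moves as one rigid body. -/
theorem seed_vel (hp : Good p) {u : V → Pt} (hu : IsInfMotion G p u) {s : Fin 14 → V}
    (hs : Seed G s) : ∃ m : Pt × Pt, ∀ i, u (s i) = vel m (p (s i)) := by
  have hf : Injective (fun i : Fin 10 => s (Fin.castAdd 4 i)) := fun i j h =>
    Fin.castAdd_injective 10 4 (hs.1 h)
  have hg : Injective (fun j : Fin 4 => s (Fin.natAdd 10 j)) := fun i j h =>
    Fin.natAdd_injective 4 10 (hs.1 h)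
  obtain ⟨m, hm⟩ := rig_K104 (G := G) hp hf hg (fun i j => hs.2 _ _ (by simp) (by simp)) u
    (fun v _ w _ h => hu v w h)
  refine ⟨m, fun i => ?_⟩
  refine Fin.addCases (m := 10) (n := 4) (motive := fun i => u (s i) = vel m (p (s i)))
    (fun i => ?_) (fun j => ?_) i
  · exact hm _ (Finset.mem_union_left _ (Finset.mem_image_of_mem _ (Finset.mem_univ i)))
  · exact hm _ (Finset.mem_union_right _ (Finset.mem_image_of_mem _ (Finset.mem_univ j)))

/-- Two screws which agree on glued sets are equal. -/
theorem eq_of_glue (hp : Good p) (hV : 4 ≤ Fintype.card V) {u : V → Pt}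
    (hu : IsInfMotion G p u) {S T : V → Prop} {m m' : Pt × Pt}
    (hS : ∀ v, S v → u v = vel m (p v)) (hT : ∀ v, T v → u v = vel m' (p v))
    (h : Glue G S T) : m = m' := by
  obtain ⟨j, x, a, b, hx, hxST, hab, hav, hbip, hdist, hleft, hright⟩ := h
  apply sub_eq_zero.1
  have hvx : ∀ l, vel (m - m') (p (x l)) = 0 := fun l => by
    rw [vel_sub_screw, ← hS _ (hxST l).1, ← hT _ (hxST l).2, sub_self]
  by_cases hj : (j : ℕ) = 3
  · have h0 : 0 < (j : ℕ) := by omega
    have h1 : 1 < (j : ℕ) := by omega
    have h2 : 2 < (j : ℕ) := by omega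
    apply hp.screw_eq_zero hV (a := x ⟨0, h0⟩) (b := x ⟨1, h1⟩) (c := x ⟨2, h2⟩)
    · exact fun h => by simpa using hx h
    · exact fun h => by simpa using hx h
    · exact fun h => by simpa using hx h
    · exact hvx _
    · exact hvx _
    · exact hvx _
  · have hXcard : (Finset.univ.image x).card = (j : ℕ) := by
      rw [Finset.card_image_of_injective _ hx, Finset.card_univ, Fintype.card_fin]
    have hinj : Injective (fun i => (a i, b i)) := by
      intro i i' h
      by_contra hne
      exact hdist i i' hne ⟨(Prod.mk.inj h).1, (Prod.mk.inj h).2⟩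
    have hFcard : (Finset.univ.image (fun i => (a i, b i))).card = (4 - (j : ℕ)).choose 2 := by
      rw [Finset.card_image_of_injective _ hinj, Finset.card_univ, Fintype.card_fin]
    have hF : ∀ {e : V × V}, e ∈ Finset.univ.image (fun i => (a i, b i)) →
        ∃ i, (a i, b i) = e := fun he => by
      obtain ⟨i, -, hi⟩ := Finset.mem_image.1 he
      exact ⟨i, hi⟩
    apply screw_eq_zero_of_bars hp (F := Finset.univ.image (fun i => (a i, b i)))
      (X := Finset.univ.image x)
    · refine ⟨?_, ?_, ?_⟩
      · intro e he e' he'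
        obtain ⟨i, rfl⟩ := hF he
        obtain ⟨i', rfl⟩ := hF he'
        exact hbip i i'
      · intro a₀ b₁ b₂ b₃ h1 h2 h3
        obtain ⟨i₁, e1⟩ := hF h1
        obtain ⟨i₂, e2⟩ := hF h2
        obtain ⟨i₃, e3⟩ := hF h3
        by_contra hcon
        push Not at hcon
        obtain ⟨n1, n2, n3⟩ := hcon
        have ea1 := (Prod.mk.inj e1).1
        have ea2 := (Prod.mk.inj e2).1
        have ea3 := (Prod.mk.inj e3).1
        have eb1 := (Prod.mk.inj e1).2
        have eb2 := (Prod.mk.inj e2).2
        have eb3 := (Prod.mk.inj e3).2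
        refine hleft i₁ i₂ i₃ ?_ ?_ ?_ ⟨ea1.trans ea2.symm, ea1.trans ea3.symm⟩
        · rintro rfl
          exact n1 (eb1.symm.trans eb2)
        · rintro rfl
          exact n2 (eb1.symm.trans eb3)
        · rintro rfl
          exact n3 (eb2.symm.trans eb3)
      · intro b₀ a₁ a₂ a₃ h1 h2 h3
        obtain ⟨i₁, e1⟩ := hF h1
        obtain ⟨i₂, e2⟩ := hF h2
        obtain ⟨i₃, e3⟩ := hF h3
        by_contra hcon
        push Not at hcon
        obtain ⟨n1, n2, n3⟩ := hcon
        have ea1 := (Prod.mk.inj e1).1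
        have ea2 := (Prod.mk.inj e2).1
        have ea3 := (Prod.mk.inj e3).1
        have eb1 := (Prod.mk.inj e1).2
        have eb2 := (Prod.mk.inj e2).2
        have eb3 := (Prod.mk.inj e3).2
        refine hright i₁ i₂ i₃ ?_ ?_ ?_ ⟨eb1.trans eb2.symm, eb1.trans eb3.symm⟩
        · rintro rfl
          exact n1 (ea1.symm.trans ea2)
        · rintro rfl
          exact n2 (ea1.symm.trans ea3)
        · rintro rfl
          exact n3 (ea2.symm.trans ea3)
    · rw [hXcard]
      have := j.2
      omega
    · intro y hy e he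
      obtain ⟨l, -, rfl⟩ := Finset.mem_image.1 hy
      obtain ⟨i, rfl⟩ := hF he
      exact hav i l
    · rw [hXcard, hFcard]
    · intro y hy
      obtain ⟨l, -, rfl⟩ := Finset.mem_image.1 hy
      exact hvx l
    · intro e he
      obtain ⟨i, rfl⟩ := hF he
      obtain ⟨ha, hb, hadj⟩ := hab i
      have hedge := hu _ _ hadj
      rw [hS _ ha, hT _ hb] at hedge
      have h2 := dot_vel_sub m (p (a i)) (p (b i))
      rw [dotProduct_sub] at hedge h2
      simp only [bar]
      rw [vel_sub_screw, dotProduct_sub]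
      linarith

/-- **Soundness**: the cluster of a seed moves as one rigid body. -/
theorem inC_vel (hp : Good p) (hV : 4 ≤ Fintype.card V) {u : V → Pt} (hu : IsInfMotion G p u)
    {s : Fin 14 → V} (hs : Seed G s) : ∃ m : Pt × Pt, ∀ v, InC G s v → u v = vel m (p v) := by
  choose! m hm using fun (s : Fin 14 → V) (h : Seed G s) => seed_vel hp hu h
  refine ⟨m s, fun v hv => ?_⟩
  refine InC.ind (R := fun s v => u v = vel (m s) (p v)) ?_ hv
  rintro s v ⟨hs, ⟨i, rfl⟩ | ⟨a, ha, hav⟩ | ⟨t, hG, hv⟩⟩
  · exact hm s hs i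
  · have hne : ∀ i j, i ≠ j → a i ≠ a j := fun i j hij h => hij (ha h)
    exact hp.vel_of_three (hav 0).2.ne (hav 1).2.ne (hav 2).2.ne (hne 0 1 (by decide))
      (hne 0 2 (by decide)) (hne 1 2 (by decide)) (hav 0).1.2 (hav 1).1.2 (hav 2).1.2
      (hu _ _ (hav 0).2) (hu _ _ (hav 1).2) (hu _ _ (hav 2).2)
  · have hmt : m s = m t := eq_of_glue hp hV hu (S := fun v => InC G s v ∧ u v = vel (m s) (p v))
      (T := fun v => InC G t v ∧ u v = vel (m t) (p v)) (fun v h => h.2) (fun v h => h.2) hG
    have h2 : u v = vel (m t) (p v) := hv.2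
    change u v = vel (m s) (p v)
    rw [h2, hmt]

/-- Two screws agreeing at three vertices are equal. -/
theorem eq_of_three (hp : Good p) (hV : 4 ≤ Fintype.card V) {m m' : Pt × Pt} {x : Fin 3 → V}
    (hx : Injective x) (h : ∀ l, vel m (p (x l)) = vel m' (p (x l))) : m = m' := by
  apply sub_eq_zero.1
  apply hp.screw_eq_zero hV (a := x 0) (b := x 1) (c := x 2)
  · exact fun h => absurd (hx h) (by decide)
  · exact fun h => absurd (hx h) (by decide)
  · exact fun h => absurd (hx h) (by decide)
  · rw [vel_sub_screw, h 0, sub_self]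
  · rw [vel_sub_screw, h 1, sub_self]
  · rw [vel_sub_screw, h 2, sub_self]

/-- **Kernel equivalence** at a configuration in general position. -/
theorem data_infRigid (hp : Good p) (hV : 4 ≤ Fintype.card V) {k m : ℕ} {H : SimpleGraph (Fin m)}
    {c : Fin k → Fin 14 → V} {w : Fin m → V} (hc : ∀ i, Seed G (c i)) (hw : Injective w)
    (hcov : ∀ v, (∃ l, w l = v) ∨ ∃ i, InC G (c i) v)
    (h3 : ∀ i, ∃ a : Fin 3 → Fin m, Injective a ∧ ∀ l, InC G (c i) (w (a l)))
    (hint : ∀ i j, (∃ v, InC G (c i) v ∧ ¬ InC G (c j) v) →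
      ∀ v, InC G (c i) v → InC G (c j) v → ∃ l, w l = v)
    (hend : ∀ u v, G.Adj u v → (∃ i, InC G (c i) u ∧ InC G (c i) v) ∨
      ((∃ l, w l = u) ∧ ∃ l, w l = v))
    (hH : ∀ a b : Fin m, H.Adj a b ↔
      a ≠ b ∧ (G.Adj (w a) (w b) ∨ ∃ i, InC G (c i) (w a) ∧ InC G (c i) (w b))) :
    InfRigid G p ↔ InfRigid H (fun l => p (w l)) := by
  classical
  constructor
  · intro h u hu
    -- the screws of the clusters
    have hm : ∀ i, ∃ q : Pt × Pt, ∀ l, InC G (c i) (w l) → u l = vel q (p (w l)) := by
      intro i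
      obtain ⟨a, ha, haC⟩ := h3 i
      have hcard : 3 ≤ ((Finset.univ.image w).filter fun v => InC G (c i) v).card := by
        have hsub : Finset.univ.image (fun l => w (a l)) ⊆
            (Finset.univ.image w).filter fun v => InC G (c i) v := by
          intro v hv
          obtain ⟨l, -, rfl⟩ := Finset.mem_image.1 hv
          exact Finset.mem_filter.2 ⟨Finset.mem_image_of_mem _ (Finset.mem_univ _), haC l⟩
        have hinj : Injective (fun l => w (a l)) := hw.comp ha
        have h1 := Finset.card_le_card hsub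
        rwa [Finset.card_image_of_injective _ hinj, Finset.card_univ,
          Fintype.card_fin] at h1
      obtain ⟨q, hq⟩ := rig_top hp hV hcard (extend w u 0) (by
        intro v hv v' hv' hvv
        obtain ⟨hv1, hv2⟩ := Finset.mem_filter.1 hv
        obtain ⟨hv1', hv2'⟩ := Finset.mem_filter.1 hv'
        obtain ⟨l, -, rfl⟩ := Finset.mem_image.1 hv1
        obtain ⟨l', -, rfl⟩ := Finset.mem_image.1 hv1'
        rw [hw.extend_apply, hw.extend_apply]
        exact hu l l' ((hH l l').2 ⟨fun h => hvv (congrArg w h), Or.inr ⟨i, hv2, hv2'⟩⟩))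
      refine ⟨q, fun l hl => ?_⟩
      have := hq (w l) (Finset.mem_filter.2
        ⟨Finset.mem_image_of_mem _ (Finset.mem_univ _), hl⟩)
      rwa [hw.extend_apply] at this
    choose q hq using hm
    -- the extended motion
    have hex : ∀ v, ∃ x : Pt, (∀ l, w l = v → x = u l) ∧
        ∀ i, InC G (c i) v → x = vel (q i) (p v) := by
      intro v
      by_cases hv : ∃ l, w l = v
      · obtain ⟨l, rfl⟩ := hv
        exact ⟨u l, fun l' hl' => by rw [hw hl'], fun i hi => hq i l hi⟩
      · obtain ⟨i, hi⟩ := (hcov v).resolve_left hv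
        refine ⟨vel (q i) (p v), fun l hl => absurd ⟨l, hl⟩ hv, fun j hj => ?_⟩
        have hsub : ∀ v', InC G (c i) v' → InC G (c j) v' := by
          intro v' hv'
          by_contra hcon
          exact hv (hint i j ⟨v', hv', hcon⟩ v hi hj)
        obtain ⟨a, ha, haC⟩ := h3 i
        have : q i = q j := eq_of_three hp hV (hw.comp ha) fun l => by
          have e1 := hq i (a l) (haC l)
          have e2 := hq j (a l) (hsub _ (haC l))
          simp only [comp_apply]
          rw [← e1, ← e2]
        rw [this]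
    choose U hUw hUc using hex
    obtain ⟨r, t, hrt⟩ := h U (by
      intro v v' hvv
      rcases hend v v' hvv with ⟨i, hi, hi'⟩ | ⟨⟨l, hl⟩, ⟨l', hl'⟩⟩
      · rw [hUc v i hi, hUc v' i hi']
        exact dot_vel_sub _ _ _
      · subst hl
        subst hl'
        rw [hUw (w l) l rfl, hUw (w l') l' rfl]
        exact hu l l' ((hH l l').2 ⟨fun h => hvv.ne (congrArg w h), Or.inl hvv⟩))
    refine ⟨r, t, fun l => ?_⟩
    rw [← hUw (w l) l rfl]
    exact hrt (w l)
  · intro h u hu
    choose q hq using fun i => inC_vel hp hV hu (hc i)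
    obtain ⟨r, t, hrt⟩ := h (fun l => u (w l)) (by
      intro l l' hll
      rcases ((hH l l').1 hll).2 with h1 | ⟨i, hi, hi'⟩
      · exact hu _ _ h1
      · simp only
        rw [hq i _ hi, hq i _ hi']
        exact dot_vel_sub _ _ _)
    refine ⟨r, t, fun v => ?_⟩
    rcases hcov v with ⟨l, rfl⟩ | ⟨i, hi⟩
    · exact hrt l
    · obtain ⟨a, ha, haC⟩ := h3 i
      have : q i = (r, t) := eq_of_three hp hV (hw.comp ha) fun l => by
        have e1 := hq i _ (haC l)
        have e2 := hrt (a l)
        simp only [comp_apply]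
        rw [← e1]
        exact e2
      rw [hq i v hi, this]
      rfl

/-- **Kernel equivalence**: a graph is generically rigid iff a kernel graph of it is. -/
theorem Data.generic (hV : 4 ≤ Fintype.card V) {k m : ℕ} {H : SimpleGraph (Fin m)}
    (h : Data G k H) : GenericallyRigid G ↔ GenericallyRigid H := by
  obtain ⟨c, w, hc, hw, hcov, h3, hint, hend, hH⟩ := h
  constructor
  · intro hG
    rcases zero_one H with h1 | h1
    · exact h1
    · exfalso
      obtain ⟨p, hpG, hp⟩ := (Filter.Eventually.and hG (ae_good (V := V))).exists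
      exact h1 _ ((data_infRigid hp hV hc hw hcov h3 hint hend hH).1 hpG)
  · intro hHr
    obtain ⟨q, hq⟩ := Filter.Eventually.exists hHr
    unfold GenericallyRigid
    filter_upwards [ae_good (V := V), ae_infRigid_of_exists (V := V) hw hq] with p hp hpH
    exact (data_infRigid hp hV hc hw hcov h3 hint hend hH).2 hpH

end Pool.Agent.Lib.MP_37c7bf_co_h54dm
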